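import Pool.Agent.H91.CF.TA

/-!
# MP_347b49_nt, board `cfm_modules`, row AFMO: means of products of local weights
-/

set_option autoImplicit false

open MeasureTheory Set Filter
open scoped Real

namespace Pool.Agent.H75.CF

open Pool.Agent.H31.CN Pool.Agent.H91.CF
open Pool.Agent.H96.CN (Av Per2 Per sum_mult sum_ind sum_nind sum_ite0 chi_zero chi_sum chi_sq
  chi_per Av_prod)

open Classical in
/-- the local weight -/
noncomputable def hpl (lam : ℤ → ℝ) (p : ℕ) (a : ℤ) : ℝ := if gdp p a then lam (ch p a) else 0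

/-- the local modulus -/
def qm (p : ℕ) : ℕ := if p = 2 then 16 else p ^ 2

theorem qm_cast (p : ℕ) : ((qm p : ℕ) : ℤ) = (p : ℤ) ^ (if p = 2 then 4 else 2) := by
  unfold qm
  split_ifs with h
  · subst h
    norm_num
  · push_cast
    rfl

theorem qm_pos {p : ℕ} (hp : p.Prime) : 0 < qm p := by
  unfold qm
  split_ifs
  · norm_num
  · exact pow_pos hp.pos 2

theorem qm_pow (p : ℕ) : ∃ n, qm p = p ^ n := by
  unfold qm
  split_ifs with h
  · subst h
    exact ⟨4, by norm_num⟩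
  · exact ⟨2, rfl⟩

theorem hpl_per (hTPR : T_TPR) (lam : ℤ → ℝ) (p : ℕ) (hp : p.Prime) : Per (qm p) (hpl lam p) := by
  intro a b h
  rw [qm_cast] at h
  obtain ⟨h1, h2, -⟩ := hTPR p a b hp h
  unfold hpl
  rw [h1]
  by_cases h3 : gdp p a
  · rw [if_pos h3, if_pos (h2.1 h3)]
  · rw [if_neg h3, if_neg fun h4 => h3 (h2.2 h4)]

theorem Av_one (q : ℕ) (hq : 0 < q) (F : ℤ → ℝ) :
    Av q (fun B _ => F B) = (1 / (q : ℝ)) * ∑ a ∈ Finset.range q, F (a : ℤ) := by
  unfold Av
  have hq' : (q : ℝ) ≠ 0 := by exact_mod_cast hq.ne'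
  have h : ∀ B ∈ Finset.range q, ∑ _C ∈ Finset.range q, F (B : ℤ) = q * F (B : ℤ) := by
    intro B _
    rw [Finset.sum_const, Finset.card_range, nsmul_eq_mul]
  rw [Finset.sum_congr rfl h, ← Finset.mul_sum]
  field_simp

theorem tri_sum (f : ℤ → ℝ) : ∑ τ ∈ ({-1, 0, 1} : Finset ℤ), f τ = f (-1) + f 0 + f 1 := by
  rw [Finset.sum_insert (by norm_num), Finset.sum_insert (by norm_num), Finset.sum_singleton]
  ring

theorem loc_two (lam : ℤ → ℝ) : (1 / ((qm 2 : ℕ) : ℝ)) * ∑ a ∈ Finset.range (qm 2),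
    hpl lam 2 (a : ℤ) = ∑ τ ∈ ({-1, 0, 1} : Finset ℤ), lam τ * del 2 τ := by
  have hq : qm 2 = 16 := rfl
  rw [hq, tri_sum]
  have h : ∀ a : ℕ, a < 16 → hpl lam 2 (a : ℤ) =
      if a % 4 = 3 then (if a % 8 = 7 then lam 1 else lam (-1)) else
        if a = 4 ∨ a = 8 then lam 0 else 0 := by
    intro a ha
    unfold hpl gdp ch
    interval_cases a <;> norm_num
  rw [Finset.sum_congr rfl fun a ha => h a (Finset.mem_range.1 ha)]
  simp only [Finset.sum_range_succ, Finset.sum_range_zero, del, if_true]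
  norm_num
  ring

theorem ch_eq_chi {p : ℕ} (h2 : p ≠ 2) (a : ℤ) : ch p a = chi p a := by
  unfold ch chi
  rw [if_neg h2, if_neg h2]

theorem loc_odd (lam : ℤ → ℝ) (p : ℕ) (hp : p.Prime) (h2 : p ≠ 2) :
    (1 / ((qm p : ℕ) : ℝ)) * ∑ a ∈ Finset.range (qm p),
    hpl lam p (a : ℤ) = ∑ τ ∈ ({-1, 0, 1} : Finset ℤ), lam τ * del p τ := by
  have hF : Fact p.Prime := ⟨hp⟩
  have hq : qm p = p * p := by
    unfold qm
    rw [if_neg h2, pow_two]
  have hp0 : (0 : ℝ) < p := by exact_mod_cast hp.pos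
  have hval : ∀ a : ℕ, hpl lam p (a : ℤ) =
      lam 0 * (if (p : ℤ) ∣ (a : ℤ) + 0 then 1 else 0) -
      lam 0 * (if ((p * p : ℕ) : ℤ) ∣ (a : ℤ) + 0 then 1 else 0) +
      (lam 1 + lam (-1)) / 2 * (if ¬ (p : ℤ) ∣ (a : ℤ) + 0 then 1 else 0) +
      (lam 1 - lam (-1)) / 2 * (chi p (a : ℤ) : ℝ) := by
    intro a
    unfold hpl gdp
    rw [if_neg h2, ch_eq_chi h2]
    have hc : ((p * p : ℕ) : ℤ) = (p : ℤ) ^ 2 := by push_cast; ring
    simp only [add_zero, hc]
    by_cases h4 : (p : ℤ) ^ 2 ∣ (a : ℤ)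
    · have h5 : (p : ℤ) ∣ (a : ℤ) := (dvd_pow_self _ (by norm_num)).trans h4
      rw [if_neg (not_not.2 h4), if_pos h5, if_pos h4, if_neg (not_not.2 h5),
        chi_zero p h2 h5]
      push_cast
      ring
    · rw [if_pos h4, if_neg h4]
      by_cases h5 : (p : ℤ) ∣ (a : ℤ)
      · rw [if_pos h5, if_neg (not_not.2 h5), chi_zero p h2 h5]
        push_cast
        ring
      · rw [if_neg h5, if_pos h5]
        have h6 := chi_sq p h2 h5
        have h7 : chi p (a : ℤ) = 1 ∨ chi p (a : ℤ) = -1 := by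
          have : (chi p (a : ℤ) - 1) * (chi p (a : ℤ) + 1) = 0 := by linear_combination h6
          rcases mul_eq_zero.1 this with h | h
          · left; omega
          · right; omega
        rcases h7 with h | h <;> rw [h] <;> push_cast <;> ring
  have hper : Per p (fun z => (chi p z : ℝ)) := by
    intro a b h
    simp only [chi_per p h2 h]
  have h8 := sum_ind p p hp.pos 0
  have h9 := sum_ind (p * p) 1 (Nat.mul_pos hp.pos hp.pos) 0
  rw [one_mul] at h9
  have h10 := sum_nind p p hp.pos 0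
  have h11 := sum_mult p p (fun z => (chi p z : ℝ)) hper
  rw [chi_sum p h2, mul_zero] at h11
  rw [hq, Finset.sum_congr rfl fun a _ => hval a, Finset.sum_add_distrib, Finset.sum_add_distrib,
    Finset.sum_sub_distrib, ← Finset.mul_sum, ← Finset.mul_sum, ← Finset.mul_sum,
    ← Finset.mul_sum, h8, h9, h10, h11, tri_sum]
  unfold del
  rw [if_neg h2, if_neg h2, if_neg h2, if_neg (by norm_num), if_pos rfl, if_neg (by norm_num)]
  push_cast
  field_simp
  ring

theorem gdN_prod (N : ℕ) (lam : ℕ → ℤ → ℝ) (a : ℤ) :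
    (open Classical in if gdN N a then Lam N lam a else 0) =
      ∏ p ∈ N.primeFactors, hpl (lam p) p a := by
  classical
  by_cases h : gdN N a
  · rw [if_pos h]
    unfold Lam hpl
    exact Finset.prod_congr rfl fun p hp => by rw [if_pos (h p hp)]
  · rw [if_neg h]
    have h' : ∃ p ∈ N.primeFactors, ¬ gdp p a := by
      unfold gdN at h
      push Not at h
      exact h
    obtain ⟨p, hp, hpa⟩ := h'
    refine (Finset.prod_eq_zero hp ?_).symm
    unfold hpl
    rw [if_neg hpa]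

theorem pf_FMO (hTPR : T_TPR) : T_FMO := by
  intro N lam hN hN2 hsq
  refine ⟨∏ p ∈ N.primeFactors, qm p, ?_, ?_, ?_, ?_⟩
  · exact Finset.prod_pos fun p hp => qm_pos (Nat.prime_of_mem_primeFactors hp)
  · intro p hp hpq
    obtain ⟨r, hr, hpr⟩ := (hp.prime.dvd_finsetProd_iff _).1 hpq
    obtain ⟨n, hn⟩ := qm_pow r
    rw [hn] at hpr
    have h1 := hp.dvd_of_dvd_pow hpr
    rw [(Nat.prime_dvd_prime_iff_eq hp (Nat.prime_of_mem_primeFactors hr)).1 h1]
    exact Nat.dvd_of_mem_primeFactors hr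
  · intro D D' hDD
    have h1 : ∀ p ∈ N.primeFactors, ch p D = ch p D' ∧ (gdp p D ↔ gdp p D') := by
      intro p hp
      have h2 : ((qm p : ℕ) : ℤ) ∣ D - D' := by
        refine dvd_trans ?_ hDD
        exact_mod_cast Finset.dvd_prod_of_mem qm hp
      rw [qm_cast] at h2
      obtain ⟨h3, h4, -⟩ := hTPR p D D' (Nat.prime_of_mem_primeFactors hp) h2
      exact ⟨h3, h4⟩
    refine ⟨?_, ?_⟩
    · unfold gdN
      exact forall₂_congr fun p hp => (h1 p hp).2
    · unfold Lam
      exact Finset.prod_congr rfl fun p hp => by rw [(h1 p hp).1]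
  · have hqpos : 0 < ∏ p ∈ N.primeFactors, qm p :=
      Finset.prod_pos fun p hp => qm_pos (Nat.prime_of_mem_primeFactors hp)
    rw [Finset.sum_congr rfl fun (a : ℕ) _ => gdN_prod N lam (a : ℤ)]
    rw [← Av_one _ hqpos (fun a => ∏ p ∈ N.primeFactors, hpl (lam p) p a)]
    have h := (Av_prod N.primeFactors qm (fun p hp => qm_pos (Nat.prime_of_mem_primeFactors hp))
      (fun p hp r hr hpr => by
        obtain ⟨n, hn⟩ := qm_pow p
        obtain ⟨m, hm⟩ := qm_pow r
        rw [hn, hm]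
        exact Nat.Coprime.pow n m ((Nat.coprime_primes (Nat.prime_of_mem_primeFactors hp)
          (Nat.prime_of_mem_primeFactors hr)).mpr hpr))
      (fun p B _ => hpl (lam p) p B)
      (fun p hp B C B' C' hB _ => hpl_per hTPR (lam p) p (Nat.prime_of_mem_primeFactors hp) B B'
        hB)).1
    rw [h]
    refine Finset.prod_congr rfl fun p hp => ?_
    have hpp := Nat.prime_of_mem_primeFactors hp
    rw [Av_one _ (qm_pos hpp) (fun a => hpl (lam p) p a)]
    by_cases h2 : p = 2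
    · subst h2
      exact loc_two (lam 2)
    · exact loc_odd (lam p) p hpp h2

end Pool.Agent.H75.CF
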