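import Pool.Agent.H91.CF.TA
import Pool.Agent.H19.CN.WDN

/-!
# The weight at the small primes is admissible
-/

set_option autoImplicit false

open MeasureTheory Set Filter NumberField
open scoped Real nonZeroDivisors

namespace Pool.Agent.H75.CF

open Pool.Agent.H31.CN Pool.Agent.H91.CF
open Pool.Agent.H96.CN (Av Per2)

/-- the local modulus without the square part -/
def gl (f r : ℕ) : ℕ := if r ∣ f then r ^ 7 else ql r

lemma qlp_eq {f r : ℕ} (hf : 0 < f) (hr : r.Prime) :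
    (qlp f r : ℤ) = sqp f r * (gl f r : ℤ) := by
  rw [qlp, sqp, gl]
  by_cases h : r ∣ f
  · rw [if_pos h, if_pos h]
    have hv : 1 ≤ f.factorization r := (hr.dvd_iff_one_le_factorization hf.ne').1 h
    push_cast
    rw [← pow_add]
    congr 1
    omega
  · rw [if_neg h, if_neg h, Nat.factorization_eq_zero_of_not_dvd h]
    simp

lemma sqp_one {f r : ℕ} (h : ¬ r ∣ f) : sqp f r = 1 := by
  rw [sqp, Nat.factorization_eq_zero_of_not_dvd h]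
  simp

lemma qf_eq (hRDF : T_RDF) {N f : ℕ} (hf : 0 < f) (hN : 1 ≤ N) (hsq : Squarefree N)
    (hfN : ∀ p, p.Prime → p ∣ f → p ∣ N) :
    (qf N f : ℤ) = (f1 f : ℤ) ^ 2 * ((∏ r ∈ N.primeFactors, gl f r : ℕ) : ℤ) := by
  obtain ⟨_, _, _, _, _, _, _, _, _, h10, _, _, _⟩ := hRDF N f hf hsq hfN
  rw [← h10, qf]
  have hsub : f.primeFactors ⊆ N.primeFactors := by
    intro p hp
    have hpp := Nat.prime_of_mem_primeFactors hp
    exact Nat.mem_primeFactors.2 ⟨hpp, hfN p hpp (Nat.dvd_of_mem_primeFactors hp), by omega⟩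
  rw [Finset.prod_subset hsub (fun p hp hpf => sqp_one fun hd => hpf
    (Nat.mem_primeFactors.2 ⟨Nat.prime_of_mem_primeFactors hp, hd, hf.ne'⟩))]
  push_cast
  rw [← Finset.prod_mul_distrib]
  exact Finset.prod_congr rfl fun r hr => qlp_eq hf (Nat.prime_of_mem_primeFactors hr)

lemma gl_dvd {f p : ℕ} : p ^ (if p = 2 then 4 else 2) ∣ gl f p := by
  rw [gl]
  by_cases h : p ∣ f
  · rw [if_pos h]
    exact pow_dvd_pow p (by split_ifs <;> omega)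
  · rw [if_neg h, ql]
    split_ifs with h2
    · subst h2
      norm_num
    · exact dvd_rfl

/-- the key lemma on discriminants -/
lemma key (hRDF : T_RDF) {N f : ℕ} (hf : 0 < f) (hN : 1 ≤ N) (hsq : Squarefree N)
    (hfN : ∀ p, p.Prime → p ∣ f → p ∣ N) {D D' : ℤ} (hD : (qf N f : ℤ) ∣ D' - D) :
    ((f1 f : ℤ) ^ 2 ∣ D' ↔ (f1 f : ℤ) ^ 2 ∣ D) ∧
      ((f1 f : ℤ) ^ 2 ∣ D → ∀ p ∈ N.primeFactors,
        (p : ℤ) ^ (if p = 2 then 4 else 2) ∣ D' / (f1 f : ℤ) ^ 2 - D / (f1 f : ℤ) ^ 2) := by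
  obtain ⟨_, _, h3, _, _, _, _, _, _, _, _, _, _⟩ := hRDF N f hf hsq hfN
  have hu : (f1 f : ℤ) ≠ 0 := by
    intro h
    have h0 : f1 f = 0 := by exact_mod_cast h
    rw [h0] at h3
    omega
  have hu2 : (f1 f : ℤ) ^ 2 ≠ 0 := pow_ne_zero 2 hu
  have hq := qf_eq hRDF hf hN hsq hfN
  have h1 : (f1 f : ℤ) ^ 2 ∣ D' - D := (hq ▸ dvd_mul_right _ _ : _ ∣ (qf N f : ℤ)).trans hD
  have hiff : (f1 f : ℤ) ^ 2 ∣ D' ↔ (f1 f : ℤ) ^ 2 ∣ D := by
    have h := dvd_add_right (c := D) h1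
    rw [sub_add_cancel] at h
    exact h
  refine ⟨hiff, fun hd p hp => ?_⟩
  obtain ⟨a, ha⟩ := hd
  obtain ⟨b, hb⟩ := hiff.2 ⟨a, ha⟩
  obtain ⟨k, hk⟩ := hD
  rw [ha, hb, Int.mul_ediv_cancel_left _ hu2, Int.mul_ediv_cancel_left _ hu2]
  have h2 : (f1 f : ℤ) ^ 2 * (b - a) =
      (f1 f : ℤ) ^ 2 * (((∏ r ∈ N.primeFactors, gl f r : ℕ) : ℤ) * k) := by
    rw [mul_sub, ← hb, ← ha, hk, hq]
    ring
  have h3 := mul_left_cancel₀ hu2 h2
  rw [h3]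
  refine Dvd.dvd.mul_right ?_ k
  have h4 : (p ^ (if p = 2 then 4 else 2) : ℕ) ∣ ∏ r ∈ N.primeFactors, gl f r :=
    gl_dvd.trans (Finset.dvd_prod_of_mem _ hp)
  exact_mod_cast h4

lemma nf_sub (hRDF : T_RDF) {N f : ℕ} (hf : 0 < f) (hsq : Squarefree N)
    (hfN : ∀ p, p.Prime → p ∣ f → p ∣ N) :
    (nf N f).primeFactors ⊆ N.primeFactors := by
  obtain ⟨_, _, _, _, _, _, _, h8, _⟩ := hRDF N f hf hsq hfN
  rw [h8]
  exact Finset.filter_subset _ _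

lemma d_sub (hRDF : T_RDF) {N f d : ℕ} (hf : 0 < f) (hN : 1 ≤ N) (hsq : Squarefree N)
    (hfN : ∀ p, p.Prime → p ∣ f → p ∣ N) (hd : d ∣ rd f) :
    d.primeFactors ⊆ N.primeFactors ∧ (rd f / d).primeFactors ⊆ N.primeFactors := by
  obtain ⟨_, _, _, h4, _⟩ := hRDF N f hf hsq hfN
  have hN0 : N ≠ 0 := by omega
  exact ⟨Nat.primeFactors_mono (hd.trans h4) hN0,
    Nat.primeFactors_mono ((Nat.div_dvd_of_dvd hd).trans h4) hN0⟩

lemma Nw_congr' (hRDF : T_RDF) {N f n₁ n₂ : ℕ} (hf : 0 < f) (hN : 1 ≤ N) (hsq : Squarefree N)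
    (hfN : ∀ p, p.Prime → p ∣ f → p ∣ N) (h1 : n₁ ∣ nf N f) (h2 : n₂ ∣ nf N f) (A e : ℕ)
    {B C B' C' : ℤ} (hB : (qf N f : ℤ) ∣ B' - B) (hC : (qf N f : ℤ) ∣ C' - C) :
    Nw n₁ n₂ A B' C' e = Nw n₁ n₂ A B C e := by
  rw [Nw, Nw]
  refine Finset.prod_congr rfl fun p hp => ?_
  have hpp := Nat.prime_of_mem_primeFactors hp
  have hp0 := hpp.pos
  have hpn : p ∣ nf N f := by
    rcases (Nat.Prime.dvd_mul hpp).1 (Nat.dvd_of_mem_primeFactors hp) with h | h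
    · exact h.trans h1
    · exact h.trans h2
  have hnf0 : nf N f ≠ 0 := by
    obtain ⟨_, _, _, _, h5, _⟩ := hRDF N f hf hsq hfN
    intro h
    rw [h] at h5
    omega
  have hpN : p ∈ N.primeFactors :=
    nf_sub hRDF hf hsq hfN (Nat.mem_primeFactors.2 ⟨hpp, hpn, hnf0⟩)
  have hpq : ((p ^ 2 : ℕ) : ℤ) ∣ (qf N f : ℤ) := by
    rw [qf_eq hRDF hf hN hsq hfN]
    refine Dvd.dvd.mul_left ?_ _
    have h4 : (p ^ 2 : ℕ) ∣ ∏ r ∈ N.primeFactors, gl f r :=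
      ((pow_dvd_pow p (by split_ifs <;> omega)).trans gl_dvd).trans
        (Finset.dvd_prod_of_mem _ hpN)
    exact_mod_cast h4
  have hpp1 : (p : ℤ) ∣ ((p ^ 2 : ℕ) : ℤ) := by
    push_cast; exact dvd_pow_self _ two_ne_zero
  rw [Pool.Agent.H19.CN.N1_congr hp0 A e (hpp1.trans (hpq.trans hB))
    (hpp1.trans (hpq.trans hC)),
    Pool.Agent.H19.CN.N2_congr hp0 A e (hpq.trans hB) (hpq.trans hC)]

lemma wf_congr (hTPR : T_TPR) (hRDF : T_RDF) {N f : ℕ} (lam : ℕ → ℤ → ℝ) {n₁ n₂ d : ℕ}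
    (hf : 0 < f) (hN : 1 ≤ N) (hsq : Squarefree N) (hfN : ∀ p, p.Prime → p ∣ f → p ∣ N)
    (hd : d ∣ rd f) (e A : ℕ) {B C B' C' : ℤ}
    (hD : (qf N f : ℤ) ∣ (4 * A * C' - B' ^ 2) - (4 * A * C - B ^ 2))
    (hNw : Nw n₁ n₂ A B' C' e = Nw n₁ n₂ A B C e) :
    wf N f lam n₁ n₂ d e A B' C' = wf N f lam n₁ n₂ d e A B C := by
  obtain ⟨k1, k2⟩ := key hRDF hf hN hsq hfN hD
  by_cases h : (f1 f : ℤ) ^ 2 ∣ 4 * A * C - B ^ 2
  · have h' := k1.2 h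
    have hk := k2 h
    have hch : ∀ p ∈ N.primeFactors, ch p ((4 * A * C' - B' ^ 2) / (f1 f : ℤ) ^ 2) =
        ch p ((4 * A * C - B ^ 2) / (f1 f : ℤ) ^ 2) ∧
        (gdp p ((4 * A * C' - B' ^ 2) / (f1 f : ℤ) ^ 2) ↔
          gdp p ((4 * A * C - B ^ 2) / (f1 f : ℤ) ^ 2)) := fun p hp => by
      obtain ⟨t1, t2, _⟩ := hTPR p _ _ (Nat.prime_of_mem_primeFactors hp) (hk p hp)
      exact ⟨t1, t2⟩
    have hgd : gdN N ((4 * A * C' - B' ^ 2) / (f1 f : ℤ) ^ 2) ↔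
        gdN N ((4 * A * C - B ^ 2) / (f1 f : ℤ) ^ 2) :=
      forall₂_congr fun p hp => (hch p hp).2
    have hLam : Lam N lam ((4 * A * C' - B' ^ 2) / (f1 f : ℤ) ^ 2) =
        Lam N lam ((4 * A * C - B ^ 2) / (f1 f : ℤ) ^ 2) :=
      Finset.prod_congr rfl fun p hp => by rw [(hch p hp).1]
    have han : ∀ n, anf N f n ((4 * A * C' - B' ^ 2) / (f1 f : ℤ) ^ 2) =
        anf N f n ((4 * A * C - B ^ 2) / (f1 f : ℤ) ^ 2) := fun n =>
      Finset.prod_congr rfl fun p hp => by rw [(hch p (nf_sub hRDF hf hsq hfN hp)).1]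
    have hcf : cfd f d ((4 * A * C' - B' ^ 2) / (f1 f : ℤ) ^ 2) =
        cfd f d ((4 * A * C - B ^ 2) / (f1 f : ℤ) ^ 2) := by
      obtain ⟨s1, s2⟩ := d_sub hRDF hf hN hsq hfN hd
      rw [cfd, cfd]
      congr 1
      · exact Finset.prod_congr rfl fun p hp => by rw [npD, npD, (hch p (s1 hp)).1]
      · exact Finset.prod_congr rfl fun p hp => by rw [npD, npD, (hch p (s2 hp)).1]
    rw [wf, wf]
    by_cases h2 : gdN N ((4 * A * C - B ^ 2) / (f1 f : ℤ) ^ 2) ∧ Nat.Coprime (e * A) f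
    · rw [if_pos ⟨h', hgd.2 h2.1, h2.2⟩, if_pos ⟨h, h2.1, h2.2⟩, hLam, han, han, hcf, hNw]
    · rw [if_neg (fun hh => h2 ⟨hgd.1 hh.2.1, hh.2.2⟩), if_neg (fun hh => h2 hh.2)]
  · rw [wf, wf, if_neg (fun hh => h (k1.1 hh.1)), if_neg (fun hh => h hh.1)]

lemma abs_inv_int_le (n : ℤ) : |1 / (n : ℝ)| ≤ 1 := by
  by_cases h : n = 0
  · subst h
    simp
  · have h1 : (1 : ℝ) ≤ |(n : ℝ)| := by
      have := Int.one_le_abs h
      exact_mod_cast this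
    rw [abs_div, abs_one, div_le_one (by linarith)]
    exact h1

lemma ch_mem (hTPR : T_TPR) {p : ℕ} (hp : p.Prime) (D : ℤ) :
    ch p D = -1 ∨ ch p D = 0 ∨ ch p D = 1 := by
  have h := (hTPR p D D hp (by simp)).2.2
  simpa using h

lemma abs_Lam_le (hTPR : T_TPR) (N : ℕ) (lam : ℕ → ℤ → ℝ) (D : ℤ) :
    |Lam N lam D| ≤ ∏ p ∈ N.primeFactors, (|lam p (-1)| + |lam p 0| + |lam p 1|) := by
  rw [Lam, Finset.abs_prod]
  refine Finset.prod_le_prod (fun _ _ => abs_nonneg _) fun p hp => ?_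
  have h1 := abs_nonneg (lam p (-1))
  have h2 := abs_nonneg (lam p 0)
  have h3 := abs_nonneg (lam p 1)
  rcases ch_mem hTPR (Nat.prime_of_mem_primeFactors hp) D with h | h | h <;> rw [h] <;> linarith

lemma abs_anf_le (hTPR : T_TPR) (N f n : ℕ) (D : ℤ) :
    |anf N f n D| ≤ ∏ _p ∈ (nf N f).primeFactors, (2 : ℝ) := by
  rw [anf, Finset.abs_prod]
  refine Finset.prod_le_prod (fun _ _ => abs_nonneg _) fun p hp => ?_
  have hpp := Nat.prime_of_mem_primeFactors hp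
  have hp1 : (1 : ℝ) ≤ p := by exact_mod_cast hpp.one_le
  have hpi : 0 < (p : ℝ)⁻¹ := by positivity
  have hpj : (p : ℝ)⁻¹ ≤ 1 := inv_le_one_of_one_le₀ hp1
  split_ifs
  · simp
  · rcases ch_mem hTPR hpp D with h | h | h <;> rw [h] <;> push_cast <;> rw [abs_le] <;>
      constructor <;> simp only [neg_div, one_div, zero_div] <;> linarith

lemma abs_cfd_le (f d : ℕ) (D : ℤ) :
    |cfd f d D| ≤ ∏ _p ∈ (rd f / d).primeFactors, (2 : ℝ) := by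
  rw [cfd, abs_mul, Finset.abs_prod, Finset.abs_prod]
  have h1 : ∏ p ∈ d.primeFactors, |-(1 / (npD f p D : ℝ))| ≤ 1 := by
    refine Finset.prod_le_one (fun _ _ => abs_nonneg _) fun p _ => ?_
    rw [abs_neg]
    exact abs_inv_int_le _
  have h2 : ∏ p ∈ (rd f / d).primeFactors, |1 - 1 / (npD f p D : ℝ)| ≤
      ∏ _p ∈ (rd f / d).primeFactors, (2 : ℝ) := by
    refine Finset.prod_le_prod (fun _ _ => abs_nonneg _) fun p _ => ?_
    have h := abs_le.1 (abs_inv_int_le (npD f p D))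
    rw [abs_le]
    constructor <;> linarith [h.1, h.2]
  have h3 : 0 ≤ ∏ p ∈ (rd f / d).primeFactors, |1 - 1 / (npD f p D : ℝ)| :=
    Finset.prod_nonneg fun _ _ => abs_nonneg _
  calc _ ≤ 1 * ∏ p ∈ (rd f / d).primeFactors, |1 - 1 / (npD f p D : ℝ)| :=
        mul_le_mul_of_nonneg_right h1 h3
    _ ≤ _ := by rw [one_mul]; exact h2

/-- (WDf) the weight is admissible. -/
theorem pf_WDf (hTPR : T_TPR) (hRDF : T_RDF) : T_WDf := by
  intro N f lam hf hN _ hsq hfN n₁ n₂ d h1 h2 hd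
  have hnfN : nf N f ∣ N := by
    obtain ⟨_, _, _, h4, _⟩ := hRDF N f hf hsq hfN
    exact Nat.div_dvd_of_dvd h4
  refine ⟨(∏ p ∈ N.primeFactors, (|lam p (-1)| + |lam p 0| + |lam p 1|)) *
    (∏ _p ∈ (nf N f).primeFactors, (2 : ℝ)) * (∏ _p ∈ (nf N f).primeFactors, (2 : ℝ)) *
    (∏ _p ∈ (rd f / d).primeFactors, (2 : ℝ)) * (N : ℝ) ^ 4, ?_, ?_, ?_, ?_⟩
  · intro e A B C
    refine wf_congr hTPR hRDF lam hf hN hsq hfN hd e A ⟨-(2 * B + (qf N f : ℤ)), by ring⟩ ?_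
    exact Nw_congr' hRDF hf hN hsq hfN h1 h2 A e ⟨1, by ring⟩ (by simp)
  · intro e A B C
    refine wf_congr hTPR hRDF lam hf hN hsq hfN hd e A ⟨4 * A, by ring⟩ ?_
    exact Nw_congr' hRDF hf hN hsq hfN h1 h2 A e (by simp) ⟨1, by ring⟩
  · intro e A B C
    refine wf_congr hTPR hRDF lam hf hN hsq hfN hd e A ⟨0, by ring⟩ ?_
    rw [Nw, Nw]
    refine Finset.prod_congr rfl fun p hp => ?_
    have hp0 := (Nat.prime_of_mem_primeFactors hp).pos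
    rw [Pool.Agent.H19.CN.N1_shift hp0, Pool.Agent.H19.CN.N2_shift hp0]
  · intro e A B C
    have b1 : 0 ≤ ∏ p ∈ N.primeFactors, (|lam p (-1)| + |lam p 0| + |lam p 1|) :=
      Finset.prod_nonneg fun _ _ => by positivity
    have b2 : 0 ≤ ∏ _p ∈ (nf N f).primeFactors, (2 : ℝ) :=
      Finset.prod_nonneg fun _ _ => by norm_num
    have b3 : 0 ≤ ∏ _p ∈ (rd f / d).primeFactors, (2 : ℝ) :=
      Finset.prod_nonneg fun _ _ => by norm_num
    rw [wf]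
    split_ifs with h
    · rw [abs_mul, abs_mul, abs_mul, abs_mul]
      have hNw := Pool.Agent.H19.CN.Nw_le hN (h1.trans hnfN) (h2.trans hnfN) A e B C
      rw [Nat.abs_cast]
      gcongr
      · exact abs_Lam_le hTPR N lam _
      · exact abs_anf_le hTPR N f n₁ _
      · exact abs_anf_le hTPR N f n₂ _
      · exact abs_cfd_le f d _
    · rw [abs_zero]
      positivity

end Pool.Agent.H75.CF
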